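import Pool.Agent.Helper58.QD.StE

/-!
# QD module Pol: bound of the curvature tensor by the sectional curvature
-/

set_option autoImplicit false

open Helper62.LH Helper62.DSH Helper58.QD MeasureTheory Set Filter Topology
open scoped ContDiff ENNReal

namespace Pool.Agent.Helper25.QD

/-- the algebraic part -/
theorem pol_alg {V : Type*} [AddCommGroup V] (R : V → V → V → V → ℝ) (q : V → ℝ)
    (a1 : ∀ a a' b c d, R (a + a') b c d = R a b c d + R a' b c d)
    (a2 : ∀ a b b' c d, R a (b + b') c d = R a b c d + R a b' c d)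
    (s2 : ∀ a b b' c d, R a (b - b') c d = R a b c d - R a b' c d)
    (a3 : ∀ a b c c' d, R a b (c + c') d = R a b c d + R a b c' d)
    (s3 : ∀ a b c c' d, R a b (c - c') d = R a b c d - R a b c' d)
    (a4 : ∀ a b c d d', R a b c (d + d') = R a b c d + R a b c d')
    (i1 : ∀ a b c d, R a b c d = -R b a c d) (i2 : ∀ a b c d, R a b c d = -R a b d c)
    (i3 : ∀ a b c d, R a b c d + R b c a d + R c a b d = 0)
    (hq0 : ∀ v, 0 ≤ q v) (hq : ∀ u v, q (u + v) + q (u - v) = 2 * q u + 2 * q v)
    {κ : ℝ} (hκ : 0 ≤ κ) (h0 : ∀ u v, 0 ≤ R u v v u) (h1 : ∀ u v, R u v v u ≤ κ * (q u * q v))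
    (u v w z : V) (hu : q u = 1) (hv : q v = 1) (hw : q w = 1) (hz : q z = 1) : |R u v w z| ≤ 4 * κ := by
  have i4 : ∀ a b c d, R a b c d = R c d a b := by
    intro a b c d
    have e1 := i3 a b c d
    have e2 := i3 b c d a
    have e3 := i3 c d a b
    have e4 := i3 d a b c
    have f1 := i1 a b c d
    have f2 := i2 a b c d
    have f3 := i1 c d a b
    have f4 := i2 c d a b
    have f5 := i2 b c a d
    have f6 := i2 c a b d
    have f7 := i2 b c d a
    have f8 := i2 c d b a
    have f9 := i2 d b c a
    have f10 := i1 d b c a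
    have f11 := i2 b d c a
    have f12 := i1 a c b d
    have f13 := i1 c a b d
    have f14 := i2 a c d b
    have f15 := i2 d a b c
    have f16 := i1 d a c b
    have f17 := i2 a b d c
    have f18 := i2 d a c b
    have f19 := i1 a d c b
    have f20 := i2 b d a c
    have f21 := i1 b d a c
    have f22 := i2 a d b c
    have f23 := i1 a c d b
    have f24 := i1 d b a c
    linarith
  -- the form `B u` on unit vectors
  have hB : ∀ u v w, q v = 1 → q w = 1 → |R u v w u| ≤ κ * q u := by
    intro u v w hv hw
    have hs : R u w v u = R u v w u := by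
      rw [i4 u w v u, i1 v u u w, i2 u v u w, neg_neg]
    have p1 := h0 u (v + w)
    have p2 := h0 u (v - w)
    have p3 := h1 u v
    have p4 := h1 u w
    rw [a2, a3, a3, hs] at p1
    rw [s2, s3, s3, hs] at p2
    rw [hv, mul_one] at p3
    rw [hw, mul_one] at p4
    rw [abs_le]
    constructor <;> linarith
  have hS : ∀ u v w z, q u = 1 → q v = 1 → q w = 1 → q z = 1 → |R u v w z + R u w v z| ≤ 6 * κ := by
    intro u v w z hu hv hw hz
    have k1 := hB (u + z) v w hv hw
    have k2 := hB u v w hv hw
    have k3 := hB z v w hv hw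
    have k4 : q (u + z) ≤ 4 := by
      have := hq u z
      have := hq0 (u - z)
      linarith
    have k5 : R (u + z) v w (u + z) = R u v w u + R z v w z + (R u v w z + R z v w u) := by
      rw [a1, a4, a4]; ring
    have k6 : R z v w u = R u w v z := by
      rw [i4 z v w u, i1 w u z v, i2 u w z v, neg_neg]
    have k7 : κ * q (u + z) ≤ κ * 4 := mul_le_mul_of_nonneg_left k4 hκ
    rw [k5, k6] at k1
    rw [hu] at k2
    rw [hz] at k3
    rw [abs_le] at k1 k2 k3 ⊢
    constructor <;> linarith [k1.1, k1.2, k2.1, k2.2, k3.1, k3.2]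
  have t1 := hS u v w z hu hv hw hz
  have t2 := hS v w u z hv hw hu hz
  have b := i3 u v w z
  have c1 := i1 v u w z
  have c2 := i1 w u v z
  rw [abs_le] at t1 t2 ⊢
  constructor <;> linarith [t1.1, t1.2, t2.1, t2.2]

theorem fderiv_sym {n : ℕ} {Γ : E n → Bm n} (hd : ContDiff ℝ ∞ Γ) (hs : ∀ x u v, Γ x u v = Γ x v u) (x a u v : E n) :
    fderiv ℝ Γ x a u v = fderiv ℝ Γ x a v u := by
  have key : ∀ u v : E n, fderiv ℝ (fun y => Γ y u v) x a = fderiv ℝ Γ x a u v := by
    intro u v
    have h1 : HasFDerivAt Γ (fderiv ℝ Γ x) x := (hd.differentiable (by simp) x).hasFDerivAt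
    have h2 : HasFDerivAt (fun y => Γ y u) ((fderiv ℝ Γ x).flip u) x := by
      have := h1.clm_apply (hasFDerivAt_const u x)
      simpa using this
    have h3 : HasFDerivAt (fun y => Γ y u v) (((fderiv ℝ Γ x).flip u).flip v) x := by
      have := h2.clm_apply (hasFDerivAt_const v x)
      simpa using this
    rw [h3.fderiv]
    rfl
  rw [← key u v, ← key v u]
  congr 2
  funext y
  exact hs y u v

/-- **module Pol** -/
theorem hPol : StChr → StCur → SPol := by
  intro hChr hCur n g Γ F G hg hΓ hF x κ hκ h0 h1 a b c l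
  obtain ⟨c1, c2, _⟩ := hChr n g Γ hg hΓ
  have hcur := hCur n g Γ hg hΓ x
  have hsy := fderiv_sym c1 c2 x
  have hc2 := c2 x
  have hon : ∀ a, g x (F a x) (F a x) = 1 := by
    intro a
    have := (hF.onb x).orth a a
    simpa using this
  refine pol_alg (fun a b c d => g x (Rm Γ x a b c) d) (fun v => g x v v) ?_ ?_ ?_ ?_ ?_ ?_ ?_ ?_ ?_ ?_ ?_ hκ h0 h1
    _ _ _ _ (hon a) (hon b) (hon c) (hon l)
  · intro a a' b c d
    have : Rm Γ x (a + a') b c = Rm Γ x a b c + Rm Γ x a' b c := by
      unfold Rm
      simp only [map_add, ContinuousLinearMap.add_apply]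
      abel
    simp only [this, map_add, ContinuousLinearMap.add_apply]
  · intro a b b' c d
    have : Rm Γ x a (b + b') c = Rm Γ x a b c + Rm Γ x a b' c := by
      unfold Rm
      simp only [map_add, ContinuousLinearMap.add_apply]
      abel
    simp only [this, map_add, ContinuousLinearMap.add_apply]
  · intro a b b' c d
    have : Rm Γ x a (b - b') c = Rm Γ x a b c - Rm Γ x a b' c := by
      unfold Rm
      simp only [map_sub, ContinuousLinearMap.sub_apply]
      abel
    simp only [this, map_sub, ContinuousLinearMap.sub_apply]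
  · intro a b c c' d
    have : Rm Γ x a b (c + c') = Rm Γ x a b c + Rm Γ x a b c' := by
      unfold Rm
      simp only [map_add]
      abel
    simp only [this, map_add, ContinuousLinearMap.add_apply]
  · intro a b c c' d
    have : Rm Γ x a b (c - c') = Rm Γ x a b c - Rm Γ x a b c' := by
      unfold Rm
      simp only [map_sub]
      abel
    simp only [this, map_sub, ContinuousLinearMap.sub_apply]
  · intro a b c d d'
    simp only [map_add]
  · intro a b c d
    have : Rm Γ x a b c = -Rm Γ x b a c := by
      unfold Rm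
      abel
    simp only [this, map_neg, ContinuousLinearMap.neg_apply]
  · intro a b c d
    exact hcur a b c d
  · intro a b c d
    have : Rm Γ x a b c + Rm Γ x b c a + Rm Γ x c a b = 0 := by
      unfold Rm
      rw [hsy a b c, hsy b c a, hsy c a b, hc2 b c, hc2 c a, hc2 a b]
      abel
    have h2 : g x (Rm Γ x a b c + Rm Γ x b c a + Rm Γ x c a b) d = 0 := by rw [this]; simp
    simpa only [map_add, ContinuousLinearMap.add_apply] using h2
  · intro v
    by_cases hv : v = 0
    · subst hv; simp
    · exact (hg.pos x v hv).le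
  · intro u v
    simp only [map_add, map_sub, ContinuousLinearMap.add_apply, ContinuousLinearMap.sub_apply]
    ring

end Pool.Agent.Helper25.QD
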